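import Pool.Agent.H44.AR.BasicA

/-!
# All reducts, all arities: the canonical Olsak map
-/

set_option autoImplicit false
set_option linter.unusedVariables false

namespace Pool.Agent.H70.AR

open Pool.Agent.H68.BP Pool.Agent.H58.SF Pool.Agent.H53.GC Pool.Agent.H53.NR Pool.Agent.H53.GR
open Pool.Agent.H57.AR Pool.Agent.H44.AR
open Pool.Agent.H57.EQ (Cx)
open Function

/-- a place of the first variable in the pattern -/
def pX : Fin 3 → Fin 6 := ![0, 0, 1]

/-- a place of the second variable in the pattern -/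
def pY : Fin 3 → Fin 6 := ![2, 1, 0]

theorem pat_pX {X : Type} (r : Fin 3) (x y : X) : pat r x y (pX r) = x := by
  fin_cases r <;> rfl

theorem pat_pY {X : Type} (r : Fin 3) (x y : X) : pat r x y (pY r) = y := by
  fin_cases r <;> rfl

/-- The tuples of blocks at the places `a` and `b` are the two sides of an identity. -/
def Hy {V : Type} {k j : ℕ} (v : Fin k → Fin 6 → V) (r : Fin 3) (a b : Fin j → Fin k) : Prop :=
  (∀ i l, v (a i) l = v (a i) (pat r (pX r) (pY r) l)) ∧
    ∀ i l, v (b i) l = v (a i) (pat 0 (pX r) (pY r) l)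

/-- the requirements on the ordered type of a tuple of values -/
def Rq {V : Type} [LinearOrder V] {σ ρ : Sig} (𝔸 : Str σ V) (𝔹 : Str ρ V) (k : ℕ)
    (v : Fin k → Fin 6 → V) (t : OT ρ (Fin k)) : Prop :=
  (∃ ψ : Fin k → V, Cx 𝔸 (fun i a => v a i) ψ ∧ tpo 𝔹 ψ = t) ∧
    ∀ (j : ℕ) (r : Fin 3) (a b : Fin j → Fin k), Hy v r a b → pullO t a = pullO t b

theorem pf_HH0 (hNR3 : Pool.Agent.H53.GR.T_NR3) (hPWO : T_PWO) (hCAN : T_CANR) : T_HH0 := by
  intro σ ρ V _ 𝔸 𝔹 M hU hol hK hbl
  obtain ⟨h0, hPM, hEx⟩ := hPWO σ ρ V 𝔸 𝔹 M hU hol hK hbl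
  have har : ∀ l, 1 ≤ ρ.ar l := fun l => (hU.ar l).1
  obtain ⟨h, hti, hR⟩ := hCAN ρ ρ V (Fin 6) 𝔹 hU.ne har (hNR3 ρ V 𝔹 M har hU.univ)
    (Rq 𝔸 𝔹) (by
      rintro k v v' t hs ⟨⟨ψ, h1, h2⟩, h3⟩
      have hs' := sameTp_iff.1 hs
      refine ⟨⟨ψ, fun l z hz => h1 l z fun i => ?_, h2⟩, fun j r a b hy => h3 j r a b ⟨?_, ?_⟩⟩
      · exact hbl l _ _ (hz i)
          (SameD.of_tpo (tpo_comp hs' (fun a : Fin (σ.ar l) => (z a, i))) ∅).symm
      · intro i l
        exact (eq_of_tpo hs' (a i, l) (a i, pat r (pX r) (pY r) l)).2 (hy.1 i l)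
      · intro i l
        exact (eq_of_tpo hs' (b i, l) (a i, pat 0 (pX r) (pY r) l)).2 (hy.2 i l))
    (by
      intro W _ G _
      obtain ⟨ψ, h1, h2⟩ := hPM W G
      refine ⟨tpo 𝔹 ψ, fun k z => ⟨⟨fun a => ψ (z a), fun l y hy => h1 l (fun a => z (y a)) hy,
        rfl⟩, fun j r a b hy => ?_⟩⟩
      rw [h2]
      have e1 : (fun i : Fin j => fun l => G l (z (a i))) = fun i : Fin j =>
          pat r (G (pX r) (z (a i))) (G (pY r) (z (a i))) := by
        funext i l
        rw [← pat_map (fun l => G l (z (a i))) r (pX r) (pY r) l]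
        exact hy.1 i l
      have e2 : (fun i : Fin j => fun l => G l (z (b i))) = fun i : Fin j =>
          pat 0 (G (pX r) (z (a i))) (G (pY r) (z (a i))) := by
        funext i l
        rw [← pat_map (fun l => G l (z (a i))) 0 (pX r) (pY r) l]
        exact hy.2 i l
      show pullO h0 (fun i : Fin j => fun l => G l (z (a i))) =
        pullO h0 (fun i : Fin j => fun l => G l (z (b i)))
      rw [e1, e2]
      exact congrArg (fun t => pullO t
        (fun i : Fin j => (G (pX r) (z (a i)), G (pY r) (z (a i))))) (hEx r))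
  have key : ∀ (j : ℕ) (r : Fin 3) (x y : Fin j → V),
      pullO h (fun i => pat r (x i) (y i)) = pullO h (fun i => pat 0 (x i) (y i)) := by
    intro j r x y
    have h1 := (hR (j + j) (Fin.append (fun i => pat r (x i) (y i))
      (fun i => pat 0 (x i) (y i)))).2 j r (Fin.castAdd j) (Fin.natAdd j) (by
        constructor
        · intro i l
          rw [Fin.append_left]
          rw [pat_map (pat r (x i) (y i)) r (pX r) (pY r) l, pat_pX, pat_pY]
        · intro i l
          rw [Fin.append_left, Fin.append_right]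
          rw [pat_map (pat r (x i) (y i)) 0 (pX r) (pY r) l, pat_pX, pat_pY])
    rw [pullO_pullO, pullO_pullO] at h1
    simpa only [Fin.append_left, Fin.append_right] using h1
  refine ⟨h, hbl, ?_, ?_, ?_⟩
  · intro W _ G
    obtain ⟨n, ⟨e⟩⟩ := Finite.exists_equiv_fin W
    obtain ⟨⟨ψ, h1, h2⟩, -⟩ := hR n (fun a i => G i (e.symm a))
    refine ⟨fun w => ψ (e w), fun l z hz => h1 l (fun a => e (z a)) fun i => ?_, ?_⟩
    · simpa only [Equiv.symm_apply_apply] using hz i
    · have h3 := congrArg (fun t => pullO t e) h2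
      simp only [pullO_pullO, pullO_tpo, Equiv.symm_apply_apply] at h3
      exact h3
  · intro k v v' hs
    exact hti k v v' (sameTp_iff.2 hs.tpo)
  · intro r
    refine Prod.ext ?_ ?_
    · funext l z
      exact congrFun (congrFun (congrArg Prod.fst
        (key _ r (fun i => (z i).1) (fun i => (z i).2))) l) (fun i => i)
    · funext p q
      have h1 := congrFun (congrFun (congrArg Prod.snd
        (key 2 r ![p.1, q.1] ![p.2, q.2])) 0) 1
      exact h1

end Pool.Agent.H70.AR
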