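import Pool.Agent.H57.AR.Targets

/-!
# All reducts, all arities: the special blocks
-/

set_option autoImplicit false
set_option linter.unusedVariables false

namespace Pool.Agent.H70.AR

open Pool.Agent.H68.BP Pool.Agent.H58.SF Pool.Agent.H53.GC Pool.Agent.H53.NR Pool.Agent.H53.GR
open Pool.Agent.H57.SO (Pal Col vt Exa Sb FBl Sbn Bh fib sigF Same Uni Can Stp)
open Pool.Agent.H44.SO (ZS JS Loc OfT LInj sig0 str0 B2)
open Pool.Agent.H57.AR
open Function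

theorem shv_inl {V S X I : Type} (P : Pal S X) (H : (I → V) → (I → V) → S ⊕ X) (w w' : I → V) :
    (∃ s, shv P H w w' = Sum.inl s) ↔ ∃ s, H w w' = Sum.inl s := by
  unfold shv
  split_ifs with h
  · exact Iff.rfl
  · constructor
    · rintro ⟨s, hs⟩
      cases hs
    · exact fun h' => absurd h' h

/-- The determining positions are determining for the structure of pairs. -/
theorem jsr_js {V V₀ S X : Type} {ρ : Sig} [LinearOrder V] [LinearOrder V₀] {P : Pal S X}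
    {𝔹 : Str ρ V} {M : ℕ} {c : V → V → S ⊕ X} {c₀ : V₀ → V₀ → S ⊕ X} (hS : Shd P 𝔹 M c c₀)
    {h : (Fin 6 → V) → (Fin 6 → V) → S ⊕ X} {h₀ : (Fin 6 → V₀) → (Fin 6 → V₀) → S ⊕ X}
    (hK : SpecK P 𝔹 c c₀ h h₀) {s : S} {κ : Fin 6 → ℕ} {J : Set (Fin 6)}
    (hJ : JSR P 𝔹 c s h κ J) : JS P c₀ s h₀ κ J := by
  intro z z' hz
  obtain ⟨y, hy2, hy⟩ := hS.lift (Fin 6 ⊕ Fin 6) (Sum.elim z z')
  have hel : Sum.elim (fun l => y (Sum.inl l)) (fun l => y (Sum.inr l)) = y := by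
    funext i
    cases i <;> rfl
  have hL : LikP 𝔹 c c₀ (fun l => y (Sum.inl l)) (fun l => y (Sum.inr l)) z z' := by
    unfold LikP
    rw [hel]
    exact ⟨hy2, fun i j => ⟨(hy i j).1.symm, (hy i j).2.symm⟩⟩
  have heq : ∀ i j, y i = y j ↔ Sum.elim z z' i = Sum.elim z z' j := by
    intro i j
    have h1 := (hy i j).1
    have h2 := (hy j i).1
    constructor
    · intro he
      rw [he] at h1 h2
      exact le_antisymm (not_lt.1 fun h' => lt_irrefl _ (h2.2 h'))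
        (not_lt.1 fun h' => lt_irrefl _ (h1.2 h'))
    · intro he
      rw [he] at h1 h2
      exact le_antisymm (not_lt.1 fun h' => lt_irrefl _ (h2.1 h'))
        (not_lt.1 fun h' => lt_irrefl _ (h1.1 h'))
  have hZ : ZS P c s κ (fun l => y (Sum.inl l)) (fun l => y (Sum.inr l)) := by
    refine ⟨fun l => ⟨?_, ?_⟩, fun l l' hl => ⟨?_, ?_⟩, fun l l' hl => ⟨?_, ?_, ?_, ?_⟩,
      fun l l' hl => ⟨?_, ?_, ?_, ?_⟩⟩
    · exact (hy (Sum.inl l) (Sum.inl l)).2.trans (hz.typ l).1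
    · exact (hy (Sum.inr l) (Sum.inr l)).2.trans (hz.typ l).2
    · exact (heq (Sum.inl l) (Sum.inl l')).2 (hz.eq l l' hl).1
    · exact (heq (Sum.inr l) (Sum.inr l')).2 (hz.eq l l' hl).2
    · exact (hy (Sum.inl l) (Sum.inl l')).1.2 (hz.lt l l' hl).1
    · exact (hy (Sum.inl l) (Sum.inr l')).1.2 (hz.lt l l' hl).2.1
    · exact (hy (Sum.inr l) (Sum.inl l')).1.2 (hz.lt l l' hl).2.2.1
    · exact (hy (Sum.inr l) (Sum.inr l')).1.2 (hz.lt l l' hl).2.2.2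
    · exact (hy (Sum.inl l) (Sum.inl l')).2.trans (hz.free l l' hl).1
    · exact (hy (Sum.inl l) (Sum.inr l')).2.trans (hz.free l l' hl).2.1
    · exact (hy (Sum.inr l) (Sum.inl l')).2.trans (hz.free l l' hl).2.2.1
    · exact (hy (Sum.inr l) (Sum.inr l')).2.trans (hz.free l l' hl).2.2.2
  rw [hK _ _ z z' hL, shv_inl, hJ _ _ hZ (by rw [hel]; exact hy2)]
  exact forall_congr' fun l => forall_congr' fun _ => heq (Sum.inl l) (Sum.inr l)

theorem pf_LTRR (hSHV : T_SHV) (hSHC : T_SHC) (hLTRW : T_LTRW) : T_LTRR := by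
  intro σ ρ V S X _ P 𝔸 𝔹 M c hs h hcore s J hJS hJ2 hJ3 i₀
  obtain ⟨V₀, hV₀, c₀, hS⟩ := hSHV σ ρ V S X P 𝔸 𝔹 M c hs
  obtain ⟨h₀, hW, hK⟩ := hSHC σ ρ V S X P 𝔸 𝔹 M c hs V₀ c₀ hS h hcore
  exact hLTRW sig0 V₀ S X P (str0 V₀) M c₀ hS.stp h₀ hW s J (fun r => jsr_js hS hK (hJS r))
    hJ2 hJ3 i₀

end Pool.Agent.H70.AR
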