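import Pool.Agent.H61.AR.Targets
import Pool.Agent.H58.CM.BPC

/-!
# BPA: the boundary is a closed curve
-/

set_option autoImplicit false

open Set Function MeasureTheory Filter Topology
open scoped Manifold ContDiff Matrix
open Pool.Agent.H60.CM Pool.Agent.H61.AR

namespace Pool.Agent.H70.AR

theorem pf_BPA : T_BPA := by
  intro D
  have hbd : IsCompact D.bd := D.bd_closed.isCompact
  have hcs : CompactSpace D.bd := isCompact_iff_compactSpace.1 hbd
  let f : D.bd → V3 := fun p => D.x p.1
  have hf : Continuous f := (D.smx.cont).comp continuous_subtype_val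
  have hcl : IsClosedMap f := hf.isClosedMap
  have hinj : Function.Injective f := by
    intro p q h
    exact Subtype.ext (D.cmc.circle.injOn p.2 q.2 h)
  have hemb : IsEmbedding f :=
    (IsClosedEmbedding.of_continuous_injective_isClosedMap hf hinj hcl).toIsEmbedding
  have hrange : ∀ y ∈ circ D.r, y ∈ Set.range f := by
    intro y hy
    obtain ⟨p, hp, hpy⟩ := D.cmc.circle.surjOn hy
    exact ⟨⟨p, hp⟩, hpy⟩
  have hr : 0 < D.r := D.cmc.r_pos
  let c : ℝ → Set.range f := fun θ =>
    ⟨cpt D.r θ, hrange _ (Pool.Agent.H58.CM.cpar_mem D.r θ)⟩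
  have hc : Continuous c :=
    Continuous.subtype_mk (Pool.Agent.H58.CM.cpar_cont D.r) _
  have hfe : ∀ y : Set.range f, f (hemb.toHomeomorph.symm y) = y := by
    intro y
    have h1 := hemb.toHomeomorph.apply_symm_apply y
    have h2 := congrArg Subtype.val h1
    exact h2
  refine ⟨fun θ => (hemb.toHomeomorph.symm (c θ)).1, ⟨?_, ?_, ?_, ?_, ?_⟩⟩
  · exact continuous_subtype_val.comp (hemb.toHomeomorph.symm.continuous.comp hc)
  · intro θ
    exact (hemb.toHomeomorph.symm (c θ)).2
  · intro θ
    exact hfe (c θ)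
  · intro θ
    have h : c (θ + 2 * Real.pi) = c θ := by
      apply Subtype.ext
      show cpt D.r (θ + 2 * Real.pi) = cpt D.r θ
      simp only [cpt, Real.cos_add_two_pi, Real.sin_add_two_pi]
    simp only [h]
  · intro p hp
    have hx : D.x p ∈ circ D.r := D.cmc.circle.mapsTo hp
    obtain ⟨t, -, -, ht⟩ := Pool.Agent.H58.CM.circ_par hr hx
    refine ⟨t, ?_⟩
    have h1 : f (hemb.toHomeomorph.symm (c t)) = f ⟨p, hp⟩ := by
      rw [hfe]
      exact ht
    exact congrArg Subtype.val (hinj h1)

end Pool.Agent.H70.AR
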